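import Mathlib
import Pool.Agent.KS6_72.RBStab

/-!
# The exact stabilisation of the coefficients of `RB_n(1221; q)`

Let `c n k` be the coefficient of `q ^ k` in `RB_n(1221; q)`.  Repeating the last letter embeds
the words of length `n` with `rb = k` into those of length `n + 1`; the words that are not in the
image are those whose last two letters differ.  If `w` is such a word of length `n + 2`, then
`rb w ≥ n`, with equality exactly for the `n` words `1 … 1 2 1 … 1 2` and `1 … 1 2 1`.
-/

set_option autoImplicit false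

open scoped Classical
open Pool.Agent.KS6_72

namespace Pool.Agent.Results.MP_3ac9ea_co.ExactThreshold

/-- The word `w` of length `n` is a restricted growth function: positive letters, first letter `1`,
and every other letter is at most `1` plus the maximum of the preceding letters. -/
def IsRGF {n : ℕ} (w : Fin n → ℕ) : Prop :=
  (∀ i, 1 ≤ w i) ∧ (∀ i : Fin n, i.val = 0 → w i = 1) ∧
    ∀ i : Fin n, 0 < i.val → w i ≤ 1 + (Finset.univ.filter (· < i)).sup w

/-- `w` avoids 1221: no indices `a < b < c < d` with `w a = w d < w b = w c`. -/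
def Avoids1221 {n : ℕ} (w : Fin n → ℕ) : Prop :=
  ¬ ∃ a b c d : Fin n, a < b ∧ b < c ∧ c < d ∧ w a = w d ∧ w d < w b ∧ w b = w c

/-- `rb(w_j)`: the number of distinct values `x > w j` occurring to the right of position `j`. -/
def rbAt {n : ℕ} (w : Fin n → ℕ) (j : Fin n) : ℕ :=
  ((Finset.univ.filter (fun i => j < i ∧ w j < w i)).image w).card

/-- `rb(w)`, the sum of the `rb(w_j)`. -/
def rb {n : ℕ} (w : Fin n → ℕ) : ℕ := ∑ j, rbAt w j

/-- `R_n(1221)` (the letters of a restricted growth function of length `n` are at most `n`). -/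
noncomputable def R1221 (n : ℕ) : Finset (Fin n → ℕ) :=
  (Fintype.piFinset (fun _ : Fin n => Finset.Icc 1 n)).filter
    (fun w => IsRGF w ∧ Avoids1221 w)

/-- The polynomial `RB_n(1221; q)`. -/
noncomputable def RB (n : ℕ) : Polynomial ℕ := ∑ w ∈ R1221 n, Polynomial.X ^ rb w

theorem isRGF_iff {n : ℕ} (w : Fin n → ℕ) : IsRGF w ↔ RBStab.RG w := by
  constructor
  · rintro ⟨h1, h2, h3⟩ i
    refine ⟨h1 i, ?_⟩
    rcases Nat.eq_zero_or_pos i.val with h | h
    · exact Or.inl (h2 i h)
    · right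
      have hne : (Finset.univ.filter (· < i)).Nonempty :=
        ⟨⟨0, by omega⟩, Finset.mem_filter.2 ⟨Finset.mem_univ _, h⟩⟩
      obtain ⟨j, hj, hj'⟩ := Finset.exists_mem_eq_sup _ hne w
      have := h3 i h
      rw [hj'] at this
      refine ⟨j, by simpa using hj, by omega⟩
  · intro h
    refine ⟨fun i => (h i).1, ?_, ?_⟩
    · intro i hi
      rcases (h i).2 with h' | ⟨j, hj, _⟩
      · exact h'
      · rw [Fin.lt_def] at hj; omega
    · intro i _
      rcases (h i).2 with h' | ⟨j, hj, h'⟩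
      · omega
      · have : w j ≤ (Finset.univ.filter (· < i)).sup w := Finset.le_sup (by simpa using hj)
        omega

theorem avoids_iff {n : ℕ} (w : Fin n → ℕ) : Avoids1221 w ↔ RBStab.Avoids w := by
  unfold Avoids1221 RBStab.Avoids
  apply not_congr
  constructor
  · rintro ⟨a, b, c, d, h1, h2, h3, h4, h5, h6⟩
    exact ⟨a, b, c, d, h1, h2, h3, h4, h6, by omega⟩
  · rintro ⟨a, b, c, d, h1, h2, h3, h4, h5, h6⟩
    exact ⟨a, b, c, d, h1, h2, h3, h4, by omega, h5⟩

theorem mem_R1221 {n : ℕ} (w : Fin n → ℕ) : w ∈ R1221 n ↔ IsRGF w ∧ Avoids1221 w := by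
  unfold R1221
  rw [Finset.mem_filter, Fintype.mem_piFinset]
  constructor
  · exact fun h => h.2
  · intro h
    refine ⟨fun i => ?_, h⟩
    have h1 := (isRGF_iff w).1 h.1
    rw [Finset.mem_Icc]
    exact ⟨(h1 i).1, RBStab.RG_le h1 i⟩

theorem coeff_RB (n k : ℕ) :
    (RB n).coeff k = ((R1221 n).filter (fun w => rb w = k)).card := by
  unfold RB
  rw [Polynomial.finsetSum_coeff, Finset.card_filter]
  apply Finset.sum_congr rfl
  intro w _
  rw [Polynomial.coeff_X_pow]
  simp [eq_comm]

/-- the words whose last two letters differ -/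
noncomputable def Dn (n k : ℕ) : Finset (Fin (n + 2) → ℕ) :=
  (R1221 (n + 2)).filter fun w => rb w = k ∧ w (Fin.last n).castSucc ≠ w (Fin.last (n + 1))

/-- one step -/
theorem step (k n : ℕ) : (RB (n + 2)).coeff k = (RB (n + 1)).coeff k + (Dn n k).card := by
  rw [coeff_RB, coeff_RB]
  have h1 : ((R1221 (n + 1)).filter (fun w => rb w = k)).card =
      ((R1221 (n + 2)).filter fun w => rb w = k ∧
        w (Fin.last n).castSucc = w (Fin.last (n + 1))).card := by
    apply Finset.card_bij (fun w _ => RBStab.ext w)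
    · intro w hw
      rw [Finset.mem_filter, mem_R1221, isRGF_iff, avoids_iff] at hw ⊢
      refine ⟨⟨(RBStab.RG_ext w).2 hw.1.1, (RBStab.Avoids_ext w).2 hw.1.2⟩, ?_, ?_⟩
      · rw [← hw.2]
        exact RBStab.rb_ext w
      · rw [RBStab.ext_castSucc, RBStab.ext_last]
    · intro w _ w' _ h
      exact RBStab.ext_injective h
    · intro w hw
      rw [Finset.mem_filter, mem_R1221, isRGF_iff, avoids_iff] at hw
      obtain ⟨w', rfl⟩ := RBStab.ext_surj hw.2.2
      refine ⟨w', ?_, rfl⟩
      rw [Finset.mem_filter, mem_R1221, isRGF_iff, avoids_iff]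
      refine ⟨⟨(RBStab.RG_ext w').1 hw.1.1, (RBStab.Avoids_ext w').1 hw.1.2⟩, ?_⟩
      rw [← hw.2.1]
      exact (RBStab.rb_ext w').symm
  rw [h1]
  unfold Dn
  rw [← Finset.card_union_of_disjoint]
  · congr 1
    ext w
    simp only [Finset.mem_union, Finset.mem_filter]
    tauto
  · rw [Finset.disjoint_left]
    intro w h2 h3
    exact (Finset.mem_filter.1 h3).2.2 (Finset.mem_filter.1 h2).2.2

/-! ### The pairs counted by `rb` -/

/-- the pairs of a position and a larger letter that occurs after it -/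
def prs {n : ℕ} (w : Fin n → ℕ) : Finset (Σ _ : Fin n, ℕ) :=
  Finset.univ.sigma fun j => (Finset.univ.filter (fun i => j < i ∧ w j < w i)).image w

theorem card_prs {n : ℕ} (w : Fin n → ℕ) : (prs w).card = rb w := by
  unfold prs rb rbAt
  rw [Finset.card_sigma]

theorem mem_prs {n : ℕ} (w : Fin n → ℕ) {i j : Fin n} (h1 : j < i) (h2 : w j < w i) :
    (⟨j, w i⟩ : Σ _ : Fin n, ℕ) ∈ prs w := by
  unfold prs
  rw [Finset.mem_sigma]
  exact ⟨Finset.mem_univ _, Finset.mem_image.2 ⟨i, Finset.mem_filter.2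
    ⟨Finset.mem_univ _, h1, h2⟩, rfl⟩⟩

theorem w_zero {n : ℕ} {w : Fin (n + 1) → ℕ} (hw : RBStab.RG w) : w 0 = 1 := by
  rcases (hw 0).2 with h | ⟨j, hj, _⟩
  · exact h
  · exact absurd hj (Fin.not_lt_zero j)

/-- the extremal words -/
def W (n i : ℕ) : Fin (n + 2) → ℕ := fun j => if j.val = i ∨ (j.val = n + 1 ∧ i < n) then 2 else 1

/-- Case A: the last letter is smaller -/
theorem caseA {n : ℕ} {w : Fin (n + 2) → ℕ} (hw : RBStab.RG w) (ha : RBStab.Avoids w)
    (h : w (Fin.last (n + 1)) < w (Fin.last n).castSucc) :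
    n ≤ rb w ∧ (rb w = n → ∃ i, 1 ≤ i ∧ i ≤ n ∧ w = W n i) := by
  set l := Fin.last (n + 1) with hl
  set p := (Fin.last n).castSucc with hp
  have hpv : p.val = n := by rw [hp, Fin.val_castSucc, Fin.val_last]
  have hlv : l.val = n + 1 := by rw [hl, Fin.val_last]
  have hpl : p < l := by rw [Fin.lt_def]; omega
  have h0 := w_zero hw
  have hl1 := (hw l).1
  have hne : ∀ j, j < p → w j ≠ w p := by
    intro j hj he
    obtain ⟨a, ha1, ha2⟩ := RBStab.exists_lt hw j (w l) hl1 (by omega)
    exact ha ⟨a, j, p, l, ha1, hj, hpl, ha2, he, by omega⟩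
  have hlt : ∀ j, j < p → w j < w p := by
    intro j hj
    rcases lt_trichotomy (w j) (w p) with h' | h' | h'
    · exact h'
    · exact absurd h' (hne j hj)
    · obtain ⟨i, hi1, hi2⟩ := RBStab.exists_lt hw j (w p) (by omega) h'
      exact absurd hi2 (hne i (hi1.trans hj))
  let f : Fin (n + 2) → (Σ _ : Fin (n + 2), ℕ) := fun j => ⟨j, w p⟩
  have hf : (Finset.Iio p).image f ⊆ prs w := by
    intro x hx
    obtain ⟨j, hj, rfl⟩ := Finset.mem_image.1 hx
    have hj' := Finset.mem_Iio.1 hj
    exact mem_prs w hj' (hlt j hj')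
  have hinj : Function.Injective f := fun a b hab => congrArg Sigma.fst hab
  have hcard : ((Finset.Iio p).image f).card = n := by
    rw [Finset.card_image_of_injective _ hinj, Fin.card_Iio, hpv]
  have hle : n ≤ rb w := by
    have h3 := Finset.card_le_card hf
    rw [hcard, card_prs] at h3
    exact h3
  refine ⟨hle, fun heq => ?_⟩
  have hall : ∀ x ∈ prs w, x ∈ (Finset.Iio p).image f := by
    intro x hx
    have he : (Finset.Iio p).image f = prs w := by
      apply Finset.eq_of_subset_of_card_le hf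
      rw [card_prs, hcard]
      omega
    rw [he]
    exact hx
  have hp2 : w p = 2 := by
    by_contra hc
    have h3 : 2 < w p := by omega
    obtain ⟨i, hi1, hi2⟩ := RBStab.exists_lt hw p 2 (by norm_num) h3
    have hi0 : (0 : Fin (n + 2)) < i := by
      rw [Fin.pos_iff_ne_zero]
      rintro rfl
      omega
    have h4 := hall _ (mem_prs w hi0 (by omega : w 0 < w i))
    obtain ⟨j, _, hj⟩ := Finset.mem_image.1 h4
    have h5 : w p = w i := congrArg (fun x : (Σ _ : Fin (n + 2), ℕ) => x.2) hj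
    omega
  have hp0 : p ≠ 0 := by
    intro hh
    rw [hh] at hp2
    omega
  have hn : 1 ≤ n := by
    rcases Nat.eq_zero_or_pos n with h' | h'
    · exfalso
      apply hp0
      apply Fin.ext
      rw [hpv, h']
      rfl
    · exact h'
  refine ⟨n, hn, le_rfl, ?_⟩
  funext j
  unfold W
  rcases lt_trichotomy j.val n with h' | h' | h'
  · have h6 : j < p := by rw [Fin.lt_def]; omega
    have h7 := hlt j h6
    have h8 := (hw j).1
    rw [if_neg (by omega)]
    omega
  · rw [if_pos (Or.inl h')]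
    have h6 : j = p := Fin.ext (by omega)
    rw [h6, hp2]
  · have h6 : j = l := Fin.ext (by have := j.2; omega)
    rw [if_neg (by omega), h6]
    omega

/-- Case B: the last letter is larger -/
theorem caseB {n : ℕ} {w : Fin (n + 2) → ℕ} (hw : RBStab.RG w) (ha : RBStab.Avoids w)
    (h : w (Fin.last n).castSucc < w (Fin.last (n + 1))) :
    n ≤ rb w ∧ (rb w = n → ∃ i, 1 ≤ i ∧ i ≤ n ∧ w = W n i) := by
  set l := Fin.last (n + 1) with hl
  set p := (Fin.last n).castSucc with hp
  have hpv : p.val = n := by rw [hp, Fin.val_castSucc, Fin.val_last]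
  have hlv : l.val = n + 1 := by rw [hl, Fin.val_last]
  have hpl : p < l := by rw [Fin.lt_def]; omega
  have h0 := w_zero hw
  have hp1 := (hw p).1
  set c := w l with hc
  have h0l : (0 : Fin (n + 2)) < l := by rw [Fin.lt_def]; simp [hlv]
  -- letters larger than `c` occur at most once
  have hbig : ∀ i j, i < j → j < l → w i = w j → ¬ c < w i := by
    intro i j hij hjl he hci
    obtain ⟨a, ha1, ha2⟩ := RBStab.exists_lt hw i c (by omega) hci
    exact ha ⟨a, i, j, l, ha1, hij, hjl, ha2, he, by omega⟩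
  -- `c` occurs at most once before
  have hone : ∀ i j, i < j → j < l → w i = c → w j ≠ c := by
    intro i j hij hjl hi hj
    have hjp : j ≠ p := by
      rintro rfl
      omega
    have hjp' : j < p := by
      rw [Fin.lt_def] at hjl ⊢
      have := Fin.val_ne_iff.2 hjp
      omega
    obtain ⟨a, ha1, ha2⟩ := RBStab.exists_lt hw i (w p) hp1 (by omega)
    exact ha ⟨a, i, j, p, ha1, hij, hjp', ha2, by omega, by omega⟩
  let S := (Finset.Iio l).filter fun j => w j ≠ c
  let f : Fin (n + 2) → (Σ _ : Fin (n + 2), ℕ) := fun j => if w j < c then ⟨j, c⟩ else ⟨0, w j⟩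
  have hf : S.image f ⊆ prs w := by
    intro x hx
    obtain ⟨j, hj, rfl⟩ := Finset.mem_image.1 hx
    obtain ⟨hj1, hj2⟩ := Finset.mem_filter.1 hj
    have hj1' := Finset.mem_Iio.1 hj1
    by_cases h1 : w j < c
    · have h2 : f j = ⟨j, w l⟩ := if_pos h1
      rw [h2]
      exact mem_prs w hj1' h1
    · have h2 : f j = ⟨0, w j⟩ := if_neg h1
      rw [h2]
      apply mem_prs w
      · rw [Fin.pos_iff_ne_zero]
        rintro rfl
        omega
      · omega
  have hinj : Set.InjOn f (S : Set (Fin (n + 2))) := by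
    intro i hi j hj hij
    obtain ⟨hi1, hi2⟩ := Finset.mem_filter.1 (Finset.mem_coe.1 hi)
    obtain ⟨hj1, hj2⟩ := Finset.mem_filter.1 (Finset.mem_coe.1 hj)
    have hi1' := Finset.mem_Iio.1 hi1
    have hj1' := Finset.mem_Iio.1 hj1
    by_cases h1 : w i < c
    · have h3 : f i = ⟨i, c⟩ := if_pos h1
      by_cases h2 : w j < c
      · have h4 : f j = ⟨j, c⟩ := if_pos h2
        rw [h3, h4] at hij
        exact congrArg Sigma.fst hij
      · have h4 : f j = ⟨0, w j⟩ := if_neg h2
        rw [h3, h4] at hij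
        have h5 : c = w j := congrArg (fun x : (Σ _ : Fin (n + 2), ℕ) => x.2) hij
        exact absurd h5.symm hj2
    · have h3 : f i = ⟨0, w i⟩ := if_neg h1
      by_cases h2 : w j < c
      · have h4 : f j = ⟨j, c⟩ := if_pos h2
        rw [h3, h4] at hij
        have h5 : w i = c := congrArg (fun x : (Σ _ : Fin (n + 2), ℕ) => x.2) hij
        exact absurd h5 hi2
      · have h4 : f j = ⟨0, w j⟩ := if_neg h2
        rw [h3, h4] at hij
        have h5 : w i = w j := congrArg (fun x : (Σ _ : Fin (n + 2), ℕ) => x.2) hij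
        rcases lt_trichotomy i j with h6 | h6 | h6
        · exact absurd (by omega) (hbig i j h6 hj1' h5)
        · exact h6
        · exact absurd (by omega) (hbig j i h6 hi1' h5.symm)
  have hcard : (S.image f).card = S.card := Finset.card_image_of_injOn hinj
  have hT : ((Finset.Iio l).filter fun j => w j = c).card ≤ 1 := by
    rw [Finset.card_le_one]
    intro i hi j hj
    obtain ⟨hi1, hi2⟩ := Finset.mem_filter.1 hi
    obtain ⟨hj1, hj2⟩ := Finset.mem_filter.1 hj
    have hi1' := Finset.mem_Iio.1 hi1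
    have hj1' := Finset.mem_Iio.1 hj1
    rcases lt_trichotomy i j with h6 | h6 | h6
    · exact absurd hj2 (hone i j h6 hj1' hi2)
    · exact h6
    · exact absurd hi2 (hone j i h6 hi1' hj2)
  have hST : ((Finset.Iio l).filter fun j => w j = c).card + S.card = n + 1 := by
    have h1 := Finset.card_filter_add_card_filter_not (s := Finset.Iio l) (fun j => w j = c)
    rw [Fin.card_Iio, hlv] at h1
    exact h1
  have hSle : S.card ≤ rb w := by
    rw [← card_prs w, ← hcard]
    exact Finset.card_le_card hf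
  have hle : n ≤ rb w := by omega
  refine ⟨hle, fun heq => ?_⟩
  have hS : S.card = n := by omega
  have hall : ∀ x ∈ prs w, x ∈ S.image f := by
    intro x hx
    have he : S.image f = prs w := by
      apply Finset.eq_of_subset_of_card_le hf
      rw [card_prs, hcard]
      omega
    rw [he]
    exact hx
  -- second components
  have hsnd : ∀ j : Fin (n + 2), (f j).2 = c ∨ ((f j).1 = 0 ∧ (f j).2 = w j ∧ ¬ w j < c) := by
    intro j
    by_cases h1 : w j < c
    · left
      have h3 : f j = ⟨j, c⟩ := if_pos h1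
      rw [h3]
    · right
      have h3 : f j = ⟨0, w j⟩ := if_neg h1
      rw [h3]
      exact ⟨rfl, rfl, h1⟩
  have hmax : ∀ i, i < l → w i ≤ c := by
    intro i hi
    by_contra hci
    obtain ⟨j, hj1, hj2⟩ := RBStab.exists_lt hw i c (by omega) (by omega)
    have h4 := hall _ (mem_prs w hj1 (by omega : w j < w i))
    obtain ⟨x, _, hx⟩ := Finset.mem_image.1 h4
    have hx1 : (f x).1 = j := congrArg (fun x : (Σ _ : Fin (n + 2), ℕ) => x.1) hx
    have hx2 : (f x).2 = w i := congrArg (fun x : (Σ _ : Fin (n + 2), ℕ) => x.2) hx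
    rcases hsnd x with h5 | ⟨h5, _, _⟩
    · omega
    · rw [hx1] at h5
      rw [h5] at hj2
      omega
  have hc2 : c = 2 := by
    by_contra hcc
    have h3 : 2 < w l := by omega
    obtain ⟨i, hi1, hi2⟩ := RBStab.exists_lt hw l 2 (by norm_num) h3
    have hi0 : (0 : Fin (n + 2)) < i := by
      rw [Fin.pos_iff_ne_zero]
      rintro rfl
      omega
    have h4 := hall _ (mem_prs w hi0 (by omega : w 0 < w i))
    obtain ⟨x, _, hx⟩ := Finset.mem_image.1 h4
    have hx2 : (f x).2 = w i := congrArg (fun x : (Σ _ : Fin (n + 2), ℕ) => x.2) hx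
    rcases hsnd x with h5 | ⟨_, h5, h6⟩
    · omega
    · omega
  have hT1 : ((Finset.Iio l).filter fun j => w j = c).card = 1 := by omega
  obtain ⟨i, hi⟩ := Finset.card_eq_one.1 hT1
  have hi' : i ∈ (Finset.Iio l).filter fun j => w j = c := by
    rw [hi]; exact Finset.mem_singleton_self i
  obtain ⟨hi1, hi2⟩ := Finset.mem_filter.1 hi'
  have hi1' := Finset.mem_Iio.1 hi1
  have hip : i ≠ p := by
    rintro rfl
    omega
  have hi0 : i ≠ 0 := by
    rintro rfl
    omega
  have hin : i.val < n := by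
    have h1 := Fin.val_ne_iff.2 hip
    rw [Fin.lt_def] at hi1'
    omega
  have hi0' : 1 ≤ i.val := by
    have h1 := Fin.val_ne_iff.2 hi0
    have h2 : ((0 : Fin (n + 2)) : ℕ) = 0 := rfl
    omega
  refine ⟨i.val, hi0', hin.le, ?_⟩
  funext j
  unfold W
  by_cases hjl : j = l
  · rw [if_pos (Or.inr ⟨by rw [hjl, hlv], hin⟩), hjl]
    exact hc2
  · have hjl' : j < l := lt_of_le_of_ne (Fin.le_last _) hjl
    by_cases hji : j = i
    · rw [if_pos (Or.inl (by rw [hji])), hji]
      omega
    · have h1 : w j ≠ c := by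
        intro h2
        have h3 : j ∈ (Finset.Iio l).filter fun j => w j = c :=
          Finset.mem_filter.2 ⟨Finset.mem_Iio.2 hjl', h2⟩
        rw [hi, Finset.mem_singleton] at h3
        exact hji h3
      have h4 := hmax j hjl'
      have h5 := (hw j).1
      have h6 := Fin.val_ne_iff.2 hji
      have h7 : j.val < n + 1 := by rw [Fin.lt_def] at hjl'; omega
      rw [if_neg (by omega)]
      omega

theorem both {n : ℕ} {w : Fin (n + 2) → ℕ} (hw : RBStab.RG w) (ha : RBStab.Avoids w)
    (h : w (Fin.last n).castSucc ≠ w (Fin.last (n + 1))) :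
    n ≤ rb w ∧ (rb w = n → ∃ i, 1 ≤ i ∧ i ≤ n ∧ w = W n i) := by
  rcases lt_or_gt_of_ne h with h' | h'
  · exact caseB hw ha h'
  · exact caseA hw ha h'

/-! ### The extremal words -/

theorem W_RG {n i : ℕ} (h1 : 1 ≤ i) : RBStab.RG (W n i) := by
  intro j
  unfold W
  by_cases h : j.val = i ∨ (j.val = n + 1 ∧ i < n)
  · rw [if_pos h]
    refine ⟨by norm_num, Or.inr ⟨0, ?_, ?_⟩⟩
    · rw [Fin.lt_def]
      have h2 : ((0 : Fin (n + 2)) : ℕ) = 0 := rfl
      omega
    · have h2 : ((0 : Fin (n + 2)) : ℕ) = 0 := rfl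
      rw [if_neg (by omega)]
  · rw [if_neg h]
    exact ⟨le_rfl, Or.inl rfl⟩

theorem W_two {n i : ℕ} (j : Fin (n + 2)) : W n i j = 1 ∨ (W n i j = 2 ∧
    (j.val = i ∨ (j.val = n + 1 ∧ i < n))) := by
  unfold W
  by_cases h : j.val = i ∨ (j.val = n + 1 ∧ i < n)
  · right; rw [if_pos h]; exact ⟨rfl, h⟩
  · left; rw [if_neg h]

theorem W_avoids {n i : ℕ} : RBStab.Avoids (W n i) := by
  rintro ⟨a, b, c, d, h1, h2, h3, h4, h5, h6⟩
  rw [Fin.lt_def] at h1 h2 h3
  have hd := d.2
  rcases W_two (i := i) a with ha | ⟨ha, _⟩ <;> rcases W_two (i := i) b with hb | ⟨hb, hb'⟩ <;>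
    rcases W_two (i := i) c with hc | ⟨hc, hc'⟩ <;> omega

theorem W_last {n i : ℕ} (h2 : i ≤ n) :
    W n i (Fin.last n).castSucc ≠ W n i (Fin.last (n + 1)) := by
  unfold W
  rw [Fin.val_castSucc, Fin.val_last, Fin.val_last]
  rcases Nat.lt_or_ge i n with h | h
  · rw [if_neg (by omega), if_pos (Or.inr ⟨rfl, h⟩)]
    norm_num
  · rw [if_pos (Or.inl (by omega)), if_neg (by omega)]
    norm_num

theorem W_rb {n i : ℕ} (h1 : 1 ≤ i) (h2 : i ≤ n) : rb (W n i) = n := by
  apply le_antisymm _ (both (W_RG h1) W_avoids (W_last h2)).1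
  rw [← card_prs]
  let l := Fin.last (n + 1)
  let i' : Fin (n + 2) := ⟨i, by omega⟩
  let S := (Finset.univ.erase l).erase i'
  let g : Fin (n + 2) → (Σ _ : Fin (n + 2), ℕ) := fun j => ⟨j, 2⟩
  have hS : S.card = n := by
    have h3 : i' ∈ Finset.univ.erase l := by
      rw [Finset.mem_erase]
      refine ⟨?_, Finset.mem_univ _⟩
      intro h
      have h4 := congrArg Fin.val h
      rw [Fin.val_last] at h4
      simp only [i'] at h4
      omega
    rw [Finset.card_erase_of_mem h3, Finset.card_erase_of_mem (Finset.mem_univ _),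
      Finset.card_univ, Fintype.card_fin]
    omega
  have h3 : prs (W n i) ⊆ S.image g := by
    intro x hx
    unfold prs at hx
    rw [Finset.mem_sigma] at hx
    obtain ⟨k, hk, hk2⟩ := Finset.mem_image.1 hx.2
    obtain ⟨_, hk3, hk4⟩ := Finset.mem_filter.1 hk
    obtain ⟨j, v⟩ := x
    simp only at hk2 hk3 hk4
    rw [Finset.mem_image]
    refine ⟨j, ?_, ?_⟩
    · rw [Finset.mem_erase, Finset.mem_erase]
      refine ⟨?_, ?_, Finset.mem_univ _⟩
      · rintro rfl
        have h5 : W n i i' = 2 := by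
          unfold W
          rw [if_pos (Or.inl rfl)]
        rcases W_two (i := i) k with h6 | ⟨h6, _⟩ <;> omega
      · rintro rfl
        exact absurd hk3 (not_lt.2 (Fin.le_last k))
    · have h5 : v = 2 := by
        rcases W_two (i := i) k with h6 | ⟨h6, _⟩ <;>
          rcases W_two (i := i) j with h7 | ⟨h7, _⟩ <;> omega
      rw [h5]
  calc (prs (W n i)).card ≤ (S.image g).card := Finset.card_le_card h3
    _ ≤ S.card := Finset.card_image_le
    _ = n := hS

theorem Dn_self (n : ℕ) : (Dn n n).card = n := by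
  have h : Dn n n = (Finset.Icc 1 n).image (W n) := by
    ext w
    unfold Dn
    rw [Finset.mem_filter, Finset.mem_image, mem_R1221, isRGF_iff, avoids_iff]
    constructor
    · rintro ⟨⟨h1, h2⟩, h3, h4⟩
      obtain ⟨i, hi1, hi2, rfl⟩ := (both h1 h2 h4).2 h3
      exact ⟨i, Finset.mem_Icc.2 ⟨hi1, hi2⟩, rfl⟩
    · rintro ⟨i, hi, rfl⟩
      obtain ⟨hi1, hi2⟩ := Finset.mem_Icc.1 hi
      exact ⟨⟨W_RG hi1, W_avoids⟩, W_rb hi1 hi2, W_last hi2⟩
  rw [h, Finset.card_image_of_injOn, Nat.card_Icc]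
  · omega
  · intro i hi i' hi' hw
    obtain ⟨hi1, hi2⟩ := Finset.mem_Icc.1 (Finset.mem_coe.1 hi)
    obtain ⟨hi1', hi2'⟩ := Finset.mem_Icc.1 (Finset.mem_coe.1 hi')
    have h1 := congrFun hw ⟨i, by omega⟩
    unfold W at h1
    rw [if_pos (Or.inl rfl)] at h1
    by_contra hne
    rw [if_neg (by simp only; omega)] at h1
    omega

theorem Dn_small {n k : ℕ} (h : k < n) : (Dn n k).card = 0 := by
  rw [Finset.card_eq_zero]
  unfold Dn
  rw [Finset.filter_eq_empty_iff]
  rintro w hw ⟨h1, h2⟩
  rw [mem_R1221, isRGF_iff, avoids_iff] at hw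
  have := (both hw.1 hw.2 h2).1
  omega

/-- **Exact stabilisation.**  Let `c n k` be the coefficient of `q ^ k` in `RB_n(1221; q)`.
Then `c n k` is nondecreasing in `n ≥ 1`, it is constant for `n ≥ k + 2`, and
`c (k + 1) k = c (k + 2) k - k`; so for `k ≥ 1` the least possible `N_k` is exactly `k + 2`. -/
theorem result (k : ℕ) :
    (∀ n, k + 2 ≤ n → (RB n).coeff k = (RB (k + 2)).coeff k) ∧
    (RB (k + 1)).coeff k + k = (RB (k + 2)).coeff k ∧
    (∀ n, 1 ≤ n → (RB n).coeff k ≤ (RB (n + 1)).coeff k) ∧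
    (1 ≤ k → ∀ N, (∀ n, N ≤ n → (RB n).coeff k = (RB N).coeff k) ↔ k + 2 ≤ N) := by
  have h1 : ∀ n, k + 2 ≤ n → (RB n).coeff k = (RB (k + 2)).coeff k := by
    intro n hn
    induction n, hn using Nat.le_induction with
    | base => rfl
    | succ n hn ih =>
      obtain ⟨m, rfl⟩ : ∃ m, n = m + 1 := ⟨n - 1, by omega⟩
      rw [step k m, Dn_small (by omega), add_zero, ih]
  have h2 : (RB (k + 1)).coeff k + k = (RB (k + 2)).coeff k := by
    rw [step k k, Dn_self]
  have h3 : ∀ n, 1 ≤ n → (RB n).coeff k ≤ (RB (n + 1)).coeff k := by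
    intro n hn
    obtain ⟨m, rfl⟩ : ∃ m, n = m + 1 := ⟨n - 1, by omega⟩
    rw [step k m]
    exact Nat.le_add_right _ _
  refine ⟨h1, h2, h3, fun hk N => ⟨fun h => ?_, fun h n hn => ?_⟩⟩
  · by_contra hN
    have h4 := h (k + 1) (by omega)
    have h5 := h (k + 2) (by omega)
    omega
  · rw [h1 n (by omega), h1 N h]

end Pool.Agent.Results.MP_3ac9ea_co.ExactThreshold
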